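import Pool.Agent.W787.PS.StmC

/-!
# PS-H1B: approximation with exponentials
-/

set_option autoImplicit false

open MeasureTheory Set Filter Topology

noncomputable section

namespace Pool.Agent.W318.PSM

open Pool.Agent.W787.PS

theorem exp_sub_one_abs (s : ℝ) : |Real.exp s - 1| ≤ |s| * Real.exp |s| := by
  rcases le_total 0 s with h | h
  · rw [abs_of_nonneg h, abs_of_nonneg (by linarith [Real.one_le_exp h])]
    have h1 := Real.add_one_le_exp (-s)
    have h2 : Real.exp s * Real.exp (-s) = 1 := by rw [← Real.exp_add]; simp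
    nlinarith [Real.exp_pos s]
  · rw [abs_of_nonpos h]
    have h1 : Real.exp s ≤ 1 := Real.exp_le_one_iff.2 h
    rw [abs_of_nonpos (by linarith)]
    have h2 := Real.add_one_le_exp s
    have h3 : 1 ≤ Real.exp (-s) := Real.one_le_exp (by linarith)
    nlinarith

theorem pointwise (a b t : ℝ) (ht : 0 < t) : (Real.exp a - Real.exp b) ^ 2 ≤
    1 / (2 * t) * (a - b) ^ 4 + t / 4 * (Real.exp (8 * |b|) + Real.exp (8 * |a - b|)) := by
  set s := a - b with hs
  set X := Real.exp (2 * |b|) with hX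
  set Y := Real.exp (2 * |s|) with hY
  have hXp : 0 < X := Real.exp_pos _
  have hYp : 0 < Y := Real.exp_pos _
  have hX4 : Real.exp (8 * |b|) = X ^ 4 := by
    rw [hX, ← Real.exp_nat_mul]
    congr 1
    push_cast
    ring
  have hY4 : Real.exp (8 * |s|) = Y ^ 4 := by
    rw [hY, ← Real.exp_nat_mul]
    congr 1
    push_cast
    ring
  have h1 : Real.exp a - Real.exp b = Real.exp b * (Real.exp s - 1) := by
    rw [mul_sub, ← Real.exp_add, mul_one, hs]
    congr 2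
    ring
  have h2 : Real.exp b ^ 2 ≤ X := by
    rw [hX, ← Real.exp_nat_mul]
    apply Real.exp_le_exp.2
    push_cast
    have := le_abs_self b
    linarith
  have h3 : (Real.exp s - 1) ^ 2 ≤ s ^ 2 * Y := by
    have h4 := exp_sub_one_abs s
    have h5 : (Real.exp s - 1) ^ 2 = |Real.exp s - 1| ^ 2 := (sq_abs _).symm
    have h6 : s ^ 2 * Y = (|s| * Real.exp |s|) ^ 2 := by
      rw [mul_pow, sq_abs, hY, ← Real.exp_nat_mul]
      push_cast
      rfl
    rw [h5, h6]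
    exact pow_le_pow_left₀ (abs_nonneg _) h4 2
  have h4 : (Real.exp a - Real.exp b) ^ 2 ≤ s ^ 2 * (X * Y) := by
    rw [h1, mul_pow]
    calc Real.exp b ^ 2 * (Real.exp s - 1) ^ 2 ≤ X * (s ^ 2 * Y) :=
          mul_le_mul h2 h3 (sq_nonneg _) hXp.le
      _ = s ^ 2 * (X * Y) := by ring
  have h5 : s ^ 2 * (X * Y) ≤ 1 / (2 * t) * s ^ 4 + t / 2 * (X * Y) ^ 2 := by
    have h6 : 0 ≤ (s ^ 2 - t * (X * Y)) ^ 2 / (2 * t) := by positivity
    have h7 : (s ^ 2 - t * (X * Y)) ^ 2 / (2 * t) =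
        1 / (2 * t) * s ^ 4 + t / 2 * (X * Y) ^ 2 - s ^ 2 * (X * Y) := by
      field_simp
      ring
    linarith
  have h6 : (X * Y) ^ 2 ≤ (X ^ 4 + Y ^ 4) / 2 := by nlinarith [sq_nonneg (X ^ 2 - Y ^ 2)]
  rw [hX4, hY4]
  have h7 : t / 2 * (X * Y) ^ 2 ≤ t / 2 * ((X ^ 4 + Y ^ 4) / 2) :=
    mul_le_mul_of_nonneg_left h6 (by positivity)
  have h8 : t / 2 * ((X ^ 4 + Y ^ 4) / 2) = t / 4 * (X ^ 4 + Y ^ 4) := by ring
  linarith

theorem h1b (h0 : S_H1Z) : S_H1B := by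
  intro M _ _ _ _ G hE U η hη
  obtain ⟨hz1, -, -, -, hz5⟩ := h0 M G
  obtain ⟨hE1, ⟨C, hC, hE2⟩, hE3⟩ := hE
  obtain ⟨ε, C', hε, hC', hE1⟩ := hE1 8 (by norm_num)
  set Kb := ∫ x, Real.exp (8 * |G.toL2 U x|) ∂G.vol with hKb
  have hKb0 : 0 ≤ Kb := integral_nonneg fun x => (Real.exp_pos _).le
  set B := Kb + C' with hB
  have hBp : 0 < B := by linarith
  set t := 2 * η ^ 2 / B with htdef
  have ht : 0 < t := by positivity
  set δ := min (min η ε) (min 1 (t * η ^ 2 / C)) with hδdef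
  have hδ : 0 < δ := by
    rw [hδdef]
    refine lt_min (lt_min hη hε) (lt_min one_pos ?_)
    positivity
  have hδη : δ ≤ η := (min_le_left _ _).trans (min_le_left _ _)
  have hδε : δ ≤ ε := (min_le_left _ _).trans (min_le_right _ _)
  have hδ1 : δ ≤ 1 := (min_le_right _ _).trans (min_le_left _ _)
  have hδt : δ ≤ t * η ^ 2 / C := (min_le_right _ _).trans (min_le_right _ _)
  obtain ⟨v, hv, -⟩ := hz5 U
  obtain ⟨k, hk⟩ := ((Metric.tendsto_atTop.1 hv) δ hδ)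
  have hk' := hk k le_rfl
  rw [dist_eq_norm] at hk'
  refine ⟨v k, hk'.le.trans hδη, ?_⟩
  set u := v k with hu
  set W : G.H1 := (u : G.H1) - U with hW
  have hWn : ‖W‖ ≤ δ := hk'.le
  obtain ⟨hi1, hi2⟩ := hE1 W (hWn.trans hδε)
  obtain ⟨hi3, hi4⟩ := hE2 W
  have hi5 := hE3 U 8
  have hae : ∀ᵐ x ∂G.vol, Geo.fn u x - G.toL2 U x = G.toL2 W x := by
    have e1 : G.toL2 W = G.toL2 (u : G.H1) - G.toL2 U := by rw [hW, map_sub]
    have e2 := Lp.coeFn_sub (G.toL2 (u : G.H1)) (G.toL2 U)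
    have e3 := (G.memLp u).coeFn_toLp
    rw [← hz1 u] at e3
    filter_upwards [e2, e3] with x h2 h3
    rw [e1, h2, Pi.sub_apply, h3]
  have hint : Integrable (fun x => 1 / (2 * t) * (G.toL2 W x) ^ 4 +
      t / 4 * (Real.exp (8 * |G.toL2 U x|) + Real.exp (8 * |G.toL2 W x|))) G.vol :=
    (hi3.const_mul _).add ((hi5.add hi1).const_mul _)
  have hle : ∫ x, (Real.exp (Geo.fn u x) - Real.exp (G.toL2 U x)) ^ 2 ∂G.vol ≤
      ∫ x, (1 / (2 * t) * (G.toL2 W x) ^ 4 +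
        t / 4 * (Real.exp (8 * |G.toL2 U x|) + Real.exp (8 * |G.toL2 W x|))) ∂G.vol := by
    refine integral_mono_of_nonneg (Eventually.of_forall fun x => sq_nonneg _) hint ?_
    filter_upwards [hae] with x hx
    have := pointwise (Geo.fn u x) (G.toL2 U x) t ht
    rw [hx] at this
    exact this
  refine hle.trans ?_
  have hi6 : Integrable (fun x => Real.exp (8 * |G.toL2 U x|) + Real.exp (8 * |G.toL2 W x|))
      G.vol := hi5.add hi1
  rw [integral_add (hi3.const_mul (1 / (2 * t))) (hi6.const_mul (t / 4)), integral_const_mul,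
    integral_const_mul]
  have e4 : ∫ x, (Real.exp (8 * |G.toL2 U x|) + Real.exp (8 * |G.toL2 W x|)) ∂G.vol =
      Kb + ∫ x, Real.exp (8 * |G.toL2 W x|) ∂G.vol := integral_add hi5 hi1
  rw [e4]
  have hδ4 : ‖W‖ ^ 4 ≤ t * η ^ 2 / C := by
    have h1 : ‖W‖ ^ 4 ≤ δ ^ 4 := pow_le_pow_left₀ (norm_nonneg _) hWn 4
    have h2 : δ ^ 4 ≤ δ := by
      have := pow_le_of_le_one hδ.le hδ1 (n := 4) (by norm_num)
      exact this
    linarith
  have h1 : 1 / (2 * t) * ∫ x, (G.toL2 W x) ^ 4 ∂G.vol ≤ η ^ 2 / 2 := by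
    have h2 : ∫ x, (G.toL2 W x) ^ 4 ∂G.vol ≤ t * η ^ 2 := by
      refine hi4.trans ?_
      calc C * ‖W‖ ^ 4 ≤ C * (t * η ^ 2 / C) := mul_le_mul_of_nonneg_left hδ4 hC.le
        _ = t * η ^ 2 := by field_simp
    calc 1 / (2 * t) * ∫ x, (G.toL2 W x) ^ 4 ∂G.vol ≤ 1 / (2 * t) * (t * η ^ 2) :=
          mul_le_mul_of_nonneg_left h2 (by positivity)
      _ = η ^ 2 / 2 := by field_simp
  have h3 : t / 4 * (Kb + ∫ x, Real.exp (8 * |G.toL2 W x|) ∂G.vol) ≤ η ^ 2 / 2 := by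
    calc t / 4 * (Kb + ∫ x, Real.exp (8 * |G.toL2 W x|) ∂G.vol) ≤ t / 4 * B :=
          mul_le_mul_of_nonneg_left (by rw [hB]; linarith) (by positivity)
      _ = η ^ 2 / 2 := by
          rw [htdef]
          field_simp
          norm_num
  linarith

end Pool.Agent.W318.PSM
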